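import Pool.Agent.L5helper41.SemiEmb
import Pool.Agent.L5helper41.Ram

/-!
# MP_654b32_co: the semi-algebraic Ramsey numbers R_f(4,n) need not be polynomial

There is one polynomial f in six variables such that for every C the number R_f(4,n) exceeds n^C
for all large n.
-/

set_option autoImplicit false

namespace Pool.Agent.Results.MP_654b32_co.Superpolynomial

open Finset

/-- the six coordinates of three points of the plane, in order -/
def coords (a b c : ℝ × ℝ) : Fin 6 → ℝ := ![a.1, a.2, b.1, b.2, c.1, c.2]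

/-- the triple relation defined by the polynomial `f`: `f(a, b, c) ≥ 0` -/
def IsEdge (f : MvPolynomial (Fin 6) ℝ) (a b c : ℝ × ℝ) : Prop :=
  0 ≤ MvPolynomial.eval (coords a b c) f

/-- every triple of the index set `S` (taken in increasing order) is an edge -/
def IsClique (f : MvPolynomial (Fin 6) ℝ) {N : ℕ} (v : Fin N → ℝ × ℝ) (S : Finset (Fin N)) : Prop :=
  ∀ i ∈ S, ∀ j ∈ S, ∀ k ∈ S, i < j → j < k → IsEdge f (v i) (v j) (v k)

/-- no triple of the index set `S` (taken in increasing order) is an edge -/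
def IsIndep (f : MvPolynomial (Fin 6) ℝ) {N : ℕ} (v : Fin N → ℝ × ℝ) (S : Finset (Fin N)) : Prop :=
  ∀ i ∈ S, ∀ j ∈ S, ∀ k ∈ S, i < j → j < k → ¬ IsEdge f (v i) (v j) (v k)

/-- every sequence of `N` distinct points of the plane gives a hypergraph with a clique on `s`
vertices or an independent set of `n` vertices -/
def Arrows (f : MvPolynomial (Fin 6) ℝ) (s n N : ℕ) : Prop :=
  ∀ v : Fin N → ℝ × ℝ, Function.Injective v →
    (∃ S : Finset (Fin N), S.card = s ∧ IsClique f v S) ∨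
    (∃ S : Finset (Fin N), S.card = n ∧ IsIndep f v S)

/-- the semi-algebraic Ramsey number: the least `N` with `Arrows f s n N` -/
noncomputable def R (f : MvPolynomial (Fin 6) ℝ) (s n : ℕ) : ℕ := sInf {N | Arrows f s n N}

theorem arrows_mono (f : MvPolynomial (Fin 6) ℝ) (s n N N' : ℕ) (h : Arrows f s n N) (hN : N ≤ N') :
    Arrows f s n N' := by
  intro v hv
  have hc : Function.Injective (Fin.castLE hN) := Fin.castLE_injective hN
  rcases h (fun i => v (Fin.castLE hN i)) (hv.comp hc) with ⟨S, hS, h1⟩ | ⟨S, hS, h1⟩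
  · left
    refine ⟨S.map ⟨_, hc⟩, by rw [Finset.card_map, hS], ?_⟩
    intro i hi j hj k hk hij hjk
    rw [Finset.mem_map] at hi hj hk
    obtain ⟨i, hi, rfl⟩ := hi
    obtain ⟨j, hj, rfl⟩ := hj
    obtain ⟨k, hk, rfl⟩ := hk
    exact h1 i hi j hj k hk hij hjk
  · right
    refine ⟨S.map ⟨_, hc⟩, by rw [Finset.card_map, hS], ?_⟩
    intro i hi j hj k hk hij hjk
    rw [Finset.mem_map] at hi hj hk
    obtain ⟨i, hi, rfl⟩ := hi
    obtain ⟨j, hj, rfl⟩ := hj
    obtain ⟨k, hk, rfl⟩ := hk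
    exact h1 i hi j hj k hk hij hjk

/-- Ramsey's theorem: the defining set is nonempty -/
theorem exists_arrows (f : MvPolynomial (Fin 6) ℝ) (s n : ℕ) : ∃ N, Arrows f s n N := by
  classical
  obtain ⟨N, hN⟩ := Pool.Agent.L5helper41.Ram.ramsey_aux 3 s n
  refine ⟨N, fun v _ => ?_⟩
  have three : ∀ i j k : Fin N, i < j → j < k → ({i, j, k} : Finset (Fin N)).card = 3 := by
    intro i j k hij hjk
    rw [Finset.card_eq_three]
    exact ⟨i, j, k, hij.ne, (hij.trans hjk).ne, hjk.ne, rfl⟩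
  rcases hN (Fin N) univ (fun T => ∀ i ∈ T, ∀ j ∈ T, ∀ k ∈ T, i < j → j < k →
      IsEdge f (v i) (v j) (v k)) (by simp) with ⟨Z, _, hZ, h⟩ | ⟨Z, _, hZ, h⟩
  · left
    refine ⟨Z, hZ, ?_⟩
    intro i hi j hj k hk hij hjk
    refine h {i, j, k} ?_ i (by simp) j (by simp) k (by simp) hij hjk
    rw [Finset.mem_powersetCard]
    refine ⟨?_, three i j k hij hjk⟩
    intro x hx
    simp only [mem_insert, mem_singleton] at hx
    rcases hx with rfl | rfl | rfl <;> assumption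
  · right
    refine ⟨Z, hZ, ?_⟩
    intro i hi j hj k hk hij hjk hedge
    refine h {i, j, k} ?_ ?_
    · rw [Finset.mem_powersetCard]
      refine ⟨?_, three i j k hij hjk⟩
      intro x hx
      simp only [mem_insert, mem_singleton] at hx
      rcases hx with rfl | rfl | rfl <;> assumption
    · intro a ha b hb c hc hab hbc
      simp only [mem_insert, mem_singleton] at ha hb hc
      rcases ha with rfl | rfl | rfl <;> rcases hb with rfl | rfl | rfl <;>
        rcases hc with rfl | rfl | rfl <;> first | exact hedge | (exfalso; omega)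

/-- the polynomial -/
noncomputable def poly : MvPolynomial (Fin 6) ℝ :=
  let w1 : MvPolynomial (Fin 6) ℝ := MvPolynomial.X 2 - MvPolynomial.X 0
  let w2 : MvPolynomial (Fin 6) ℝ := MvPolynomial.X 3 - MvPolynomial.X 1
  let u1 : MvPolynomial (Fin 6) ℝ := MvPolynomial.X 4 - MvPolynomial.X 2
  let u2 : MvPolynomial (Fin 6) ℝ := MvPolynomial.X 5 - MvPolynomial.X 3
  w1 ^ 3 * w2 * u1 ^ 4 * u2 - 2 * (w1 ^ 5 * u1 ^ 5 * u2 + w1 * w2 ^ 2 * u2 ^ 2 + w1 ^ 2 * w2 * u1 ^ 8)

theorem edge_poly (a b c : ℝ × ℝ) : IsEdge poly a b c ↔ Pool.Agent.L5helper41.Semi.Edge a b c := by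
  unfold IsEdge Pool.Agent.L5helper41.Semi.Edge Pool.Agent.L5helper41.Semi.FF poly coords
  simp

open Pool.Agent.L5helper41.Semi in
theorem not_arrows (k M n : ℕ) (hk : 2 ≤ k) (hM : 0 < M) (hn : (3 * k ^ 2) ^ ((AP k).1 * M) < n) :
    ¬ Arrows poly 4 n (2 ^ (k * ((AP k).1 * M))) := by
  intro h
  obtain ⟨v, hv, h4, hi⟩ := exists_points k M hk hM
  rcases h v hv with ⟨S, hS, h1⟩ | ⟨S, hS, h1⟩
  · have e := S.orderEmbOfFin hS
    have hm : ∀ x, S.orderEmbOfFin hS x ∈ S := fun x => Finset.orderEmbOfFin_mem S hS x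
    have hl : ∀ x y : Fin 4, x < y → S.orderEmbOfFin hS x < S.orderEmbOfFin hS y :=
      fun x y hxy => (S.orderEmbOfFin hS).strictMono hxy
    refine h4 (S.orderEmbOfFin hS 0) (S.orderEmbOfFin hS 1) (S.orderEmbOfFin hS 2)
      (S.orderEmbOfFin hS 3) (hl _ _ (by decide)) (hl _ _ (by decide)) (hl _ _ (by decide)) ?_ ?_ ?_
    · exact (edge_poly _ _ _).1 (h1 _ (hm _) _ (hm _) _ (hm _) (hl _ _ (by decide)) (hl _ _ (by decide)))
    · exact (edge_poly _ _ _).1 (h1 _ (hm _) _ (hm _) _ (hm _) (hl _ _ (by decide)) (hl _ _ (by decide)))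
    · exact (edge_poly _ _ _).1 (h1 _ (hm _) _ (hm _) _ (hm _) (hl _ _ (by decide)) (hl _ _ (by decide)))
  · have := hi S (fun i hi j hj l hl hij hjl he => h1 i hi j hj l hl hij hjl ((edge_poly _ _ _).2 he))
    omega

theorem lt_R (f : MvPolynomial (Fin 6) ℝ) (s n N : ℕ) (h : ¬ Arrows f s n N) : N < R f s n := by
  by_contra hc
  have h1 : Arrows f s n (R f s n) := Nat.sInf_mem (exists_arrows f s n)
  exact h (arrows_mono f s n _ _ h1 (not_lt.1 hc))

theorem exists_k (C : ℕ) : ∃ k : ℕ, 2 ≤ k ∧ (3 * k ^ 2) ^ (2 * C) ≤ 2 ^ k := by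
  have h1 := tendsto_pow_const_div_const_pow_of_one_lt (4 * C) (show (1 : ℝ) < 2 by norm_num)
  have hpos : (0 : ℝ) < 1 / 3 ^ (2 * C) := by positivity
  have h2 := (h1.eventually (gt_mem_nhds hpos)).and (Filter.eventually_ge_atTop 2)
  obtain ⟨k, hk, hk2⟩ := h2.exists
  refine ⟨k, hk2, ?_⟩
  have h3 : ((k : ℝ)) ^ (4 * C) * 3 ^ (2 * C) < 2 ^ k := by
    rw [div_lt_div_iff₀ (by positivity) (by positivity), one_mul] at hk
    exact hk
  have h4 : ((3 * k ^ 2 : ℕ) : ℝ) ^ (2 * C) ≤ 2 ^ k := by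
    push_cast
    rw [mul_pow, ← pow_mul, mul_comm]
    have : 2 * (2 * C) = 4 * C := by ring
    rw [this]
    exact h3.le
  exact_mod_cast h4

/-- **Main theorem.** For the polynomial `poly` the Ramsey numbers `R_f(4,n)` grow faster than every
power of `n`. -/
theorem result : ∃ f : MvPolynomial (Fin 6) ℝ, ∀ C : ℕ, ∃ n₀ : ℕ, ∀ n ≥ n₀, n ^ C < R f 4 n := by
  refine ⟨poly, fun C => ?_⟩
  obtain ⟨k, hk, hkC⟩ := exists_k C
  set A := (Pool.Agent.L5helper41.Semi.AP k).1 with hA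
  have hApos : 0 < A := (Pool.Agent.L5helper41.Semi.AP_pos k).1
  set b := (3 * k ^ 2) ^ A with hb
  have hb2 : 2 ≤ b := by
    have h1 : 2 ≤ 3 * k ^ 2 := by nlinarith
    calc 2 ≤ 3 * k ^ 2 := h1
      _ = (3 * k ^ 2) ^ 1 := (pow_one _).symm
      _ ≤ (3 * k ^ 2) ^ A := Nat.pow_le_pow_right (by omega) hApos
  refine ⟨b + 1, fun n hn => ?_⟩
  set M := Nat.log b (n - 1) with hM
  have hM1 : 0 < M := Nat.log_pos (by omega) (by omega)
  have hlow : b ^ M ≤ n - 1 := Nat.pow_log_le_self b (by omega)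
  have hhigh : n - 1 < b ^ (M + 1) := Nat.lt_pow_succ_log_self (by omega) _
  have hna : ¬ Arrows poly 4 n (2 ^ (k * (A * M))) := by
    apply not_arrows k M n hk hM1
    rw [← hA, pow_mul, ← hb]
    omega
  have h1 := lt_R poly 4 n _ hna
  refine lt_of_le_of_lt ?_ h1
  calc n ^ C ≤ (b ^ (M + 1)) ^ C := Nat.pow_le_pow_left (by omega) C
    _ ≤ (b ^ (2 * M)) ^ C := Nat.pow_le_pow_left (Nat.pow_le_pow_right (by omega) (by omega)) C
    _ = ((3 * k ^ 2) ^ (2 * C)) ^ (A * M) := by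
        rw [hb, ← pow_mul, ← pow_mul, ← pow_mul]
        congr 1
        ring
    _ ≤ (2 ^ k) ^ (A * M) := Nat.pow_le_pow_left hkC _
    _ = 2 ^ (k * (A * M)) := by rw [← pow_mul]

end Pool.Agent.Results.MP_654b32_co.Superpolynomial
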